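import Pool.Agent.WIR.StmtsB

/-!
# Squad WIR, row MOM
-/

set_option autoImplicit false

namespace Pool.Agent.WIR.H32

theorem gh_formula (l : ℕ) (α c : ℝ) : ∀ n : ℕ,
    ∑ x ∈ Finset.Icc (l + 1) (l + n), (1 / 2 : ℝ) ^ (x - l) * (α * ((x : ℝ) - l) + c) =
      c * (1 - (1 / 2) ^ n) + α * (2 - (n + 2) * (1 / 2) ^ n)
  | 0 => by simp
  | n + 1 => by
      rw [← add_assoc, Finset.sum_Icc_succ_top (by omega), gh_formula l α c n]
      have h1 : l + n + 1 - l = n + 1 := by omega
      rw [h1]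
      push_cast
      rw [pow_succ]
      ring

theorem kh_formula (l : ℕ) (α c : ℝ) : ∀ n : ℕ,
    ∑ x ∈ Finset.Icc (l + 2) (l + n), ((x - l - 1 : ℕ) : ℝ) * (1 / 2 : ℝ) ^ (x - l) *
      (α * ((x : ℝ) - l) + c) =
      c * (1 - (n + 1) * (1 / 2) ^ n) + α * (4 - (n ^ 2 + 3 * n + 4) * (1 / 2) ^ n)
  | 0 => by simp
  | 1 => by
      rw [Finset.Icc_eq_empty (by omega)]
      norm_num
  | n + 2 => by
      rw [show l + (n + 2) = (l + (n + 1)) + 1 by ring, Finset.sum_Icc_succ_top (by omega),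
        kh_formula l α c (n + 1)]
      have h1 : l + (n + 1) + 1 - l = n + 2 := by omega
      have h2 : n + 2 - 1 = n + 1 := by omega
      rw [h1, h2]
      push_cast
      rw [pow_succ, pow_succ]
      ring

theorem mom : MomStmt := by
  intro B l y0 α β hα hβ hy
  have hc : 0 ≤ α * ((l : ℝ) - y0) + β := by
    have : (0 : ℝ) ≤ (l : ℝ) - y0 := sub_nonneg.2 (by exact_mod_cast hy)
    positivity
  rcases le_total B l with hB | hB
  · constructor
    · rw [Gh, Finset.Icc_eq_empty (by omega), Finset.sum_empty]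
      nlinarith
    · rw [Kh, Finset.Icc_eq_empty (by omega), Finset.sum_empty]
      nlinarith
  · obtain ⟨n, rfl⟩ := Nat.exists_eq_add_of_le hB
    have hn : (0 : ℝ) ≤ (1 / 2) ^ n := by positivity
    have hn0 : (0 : ℝ) ≤ n := Nat.cast_nonneg _
    constructor
    · have h := gh_formula l α (α * ((l : ℝ) - y0) + β) n
      have h2 : Gh (l + n) (fun x => α * ((x : ℝ) - y0) + β) l =
          ∑ x ∈ Finset.Icc (l + 1) (l + n), (1 / 2 : ℝ) ^ (x - l) *
            (α * ((x : ℝ) - l) + (α * ((l : ℝ) - y0) + β)) := by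
        rw [Gh]
        refine Finset.sum_congr rfl fun x _ => ?_
        ring
      rw [h2, h]
      have h3 : 0 ≤ (α * ((l : ℝ) - y0) + β) * (1 / 2) ^ n := mul_nonneg hc hn
      have h4 : 0 ≤ α * ((n + 2) * (1 / 2) ^ n) := by positivity
      nlinarith
    · have h := kh_formula l α (α * ((l : ℝ) - y0) + β) n
      have h2 : Kh (l + n) (fun x => α * ((x : ℝ) - y0) + β) l =
          ∑ x ∈ Finset.Icc (l + 2) (l + n), ((x - l - 1 : ℕ) : ℝ) * (1 / 2 : ℝ) ^ (x - l) *
            (α * ((x : ℝ) - l) + (α * ((l : ℝ) - y0) + β)) := by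
        rw [Kh]
        refine Finset.sum_congr rfl fun x _ => ?_
        ring
      rw [h2, h]
      have h3 : 0 ≤ (α * ((l : ℝ) - y0) + β) * ((n + 1) * (1 / 2) ^ n) :=
        mul_nonneg hc (by positivity)
      have h4 : 0 ≤ α * ((n ^ 2 + 3 * n + 4) * (1 / 2) ^ n) := by positivity
      nlinarith

end Pool.Agent.WIR.H32
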