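import Pool.Agent.WIR.StmtsC

/-!
# Squad WIR, row SPL
-/

set_option autoImplicit false

namespace Pool.Agent.WIR.H32

theorem rk_left {L M : ℕ} {O1 O2 : Finset ℕ} (h2 : O2 ⊆ Finset.Icc (L + 1) M) {p : ℕ}
    (hp : p ≤ L) : rk (O1 ∪ O2) p = rk O1 p := by
  unfold rk
  congr 1
  ext q
  simp only [Finset.mem_filter, Finset.mem_union]
  constructor
  · rintro ⟨h3 | h3, h4⟩
    · exact ⟨h3, h4⟩
    · have := (Finset.mem_Icc.1 (h2 h3)).1
      omega
  · rintro ⟨h3, h4⟩
    exact ⟨Or.inl h3, h4⟩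

theorem disj {L M : ℕ} {O1 O2 : Finset ℕ} (h1 : O1 ⊆ Finset.Icc 1 L)
    (h2 : O2 ⊆ Finset.Icc (L + 1) M) : Disjoint O1 O2 := by
  rw [Finset.disjoint_left]
  intro q h3 h4
  have h5 := (Finset.mem_Icc.1 (h1 h3)).2
  have h6 := (Finset.mem_Icc.1 (h2 h4)).1
  omega

theorem rk_right {L M : ℕ} {O1 O2 : Finset ℕ} (h1 : O1 ⊆ Finset.Icc 1 L)
    (h2 : O2 ⊆ Finset.Icc (L + 1) M) {p : ℕ} (hp : L < p) :
    rk (O1 ∪ O2) p = O1.card + rk O2 p := by
  unfold rk
  rw [Finset.filter_union, Finset.card_union_of_disjoint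
    (Finset.disjoint_filter_filter (disj h1 h2))]
  congr 1
  rw [Finset.filter_true_of_mem]
  intro q hq
  have := (Finset.mem_Icc.1 (h1 hq)).2
  omega

theorem FO_union (N : ℕ) {L M : ℕ} {O1 O2 : Finset ℕ} (h1 : O1 ⊆ Finset.Icc 1 L)
    (h2 : O2 ⊆ Finset.Icc (L + 1) M) : FO N (O1 ∪ O2) =
      FO N O1 + ∑ p ∈ O2, 3 ^ (O1.card + rk O2 p) * (2 : ZMod (3 ^ N))⁻¹ ^ p := by
  unfold FO
  rw [Finset.sum_union (disj h1 h2)]
  congr 1
  · refine Finset.sum_congr rfl fun p hp => ?_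
    rw [rk_left h2 (Finset.mem_Icc.1 (h1 hp)).2]
  · refine Finset.sum_congr rfl fun p hp => ?_
    rw [rk_right h1 h2 (by have := (Finset.mem_Icc.1 (h2 hp)).1; omega)]

open Classical in
theorem spl (aws : AwsStmt) : SplStmt := by
  intro N L M t S ξ 𝒢 hLM h𝒢
  have hA := aws N S ξ (M - L) t L
  rw [show L + (M - L) = M by omega] at hA
  rw [← hA, Finset.sum_mul_sum, ← Finset.sum_product']
  refine Finset.sum_bij' (fun O _ => (O ∩ Finset.Icc 1 L, O ∩ Finset.Icc (L + 1) M))
    (fun P _ => P.1 ∪ P.2) ?_ ?_ ?_ ?_ ?_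
  · intro O hO
    obtain ⟨h1, h2, h3⟩ := Finset.mem_filter.1 hO
    rw [Finset.mem_powerset] at h1
    rw [Finset.mem_product]
    refine ⟨h2, Finset.mem_filter.2 ⟨Finset.mem_powerset.2 Finset.inter_subset_right, ?_⟩⟩
    have h4 : O = (O ∩ Finset.Icc 1 L) ∪ (O ∩ Finset.Icc (L + 1) M) := by
      ext q
      simp only [Finset.mem_union, Finset.mem_inter, Finset.mem_Icc]
      constructor
      · intro hq
        have h5 := Finset.mem_Icc.1 (h1 hq)
        rcases le_or_gt q L with h6 | h6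
        · exact Or.inl ⟨hq, h5.1, h6⟩
        · exact Or.inr ⟨hq, h6, h5.2⟩
      · rintro (h5 | h5) <;> exact h5.1
    have h7 : O.card = t + (O ∩ Finset.Icc (L + 1) M).card := by
      conv_lhs => rw [h4]
      rw [Finset.card_union_of_disjoint
        (disj (L := L) (M := M) Finset.inter_subset_right Finset.inter_subset_right),
        (h𝒢 _ h2).2]
    rw [← h7]
    exact h3
  · rintro ⟨O1, O2⟩ hP
    obtain ⟨h1, h2⟩ := Finset.mem_product.1 hP
    obtain ⟨h3, h4⟩ := Finset.mem_filter.1 h2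
    rw [Finset.mem_powerset] at h3
    obtain ⟨h5, h6⟩ := h𝒢 _ h1
    simp only at h1 h3 h4 h5 h6 ⊢
    refine Finset.mem_filter.2 ⟨Finset.mem_powerset.2 ?_, ?_, ?_⟩
    · refine Finset.union_subset (h5.trans (Finset.Icc_subset_Icc_right hLM)) (h3.trans ?_)
      exact Finset.Icc_subset_Icc_left (by omega)
    · have h7 : (O1 ∪ O2) ∩ Finset.Icc 1 L = O1 := by
        ext q
        simp only [Finset.mem_inter, Finset.mem_union]
        constructor
        · rintro ⟨h8 | h8, h9⟩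
          · exact h8
          · have h10 := (Finset.mem_Icc.1 (h3 h8)).1
            have h11 := (Finset.mem_Icc.1 h9).2
            omega
        · intro h8
          exact ⟨Or.inl h8, h5 h8⟩
      rw [h7]
      exact h1
    · rw [Finset.card_union_of_disjoint (disj h5 h3), h6]
      exact h4
  · intro O hO
    obtain ⟨h1, h2, h3⟩ := Finset.mem_filter.1 hO
    rw [Finset.mem_powerset] at h1
    ext q
    simp only [Finset.mem_union, Finset.mem_inter, Finset.mem_Icc]
    constructor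
    · rintro (h5 | h5) <;> exact h5.1
    · intro hq
      have h5 := Finset.mem_Icc.1 (h1 hq)
      rcases le_or_gt q L with h6 | h6
      · exact Or.inl ⟨hq, h5.1, h6⟩
      · exact Or.inr ⟨hq, h6, h5.2⟩
  · rintro ⟨O1, O2⟩ hP
    obtain ⟨h1, h2⟩ := Finset.mem_product.1 hP
    obtain ⟨h3, h4⟩ := Finset.mem_filter.1 h2
    rw [Finset.mem_powerset] at h3
    obtain ⟨h5, h6⟩ := h𝒢 _ h1
    simp only at h1 h3 h4 h5 h6 ⊢
    refine Prod.ext ?_ ?_
    · ext q
      simp only [Finset.mem_inter, Finset.mem_union]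
      constructor
      · rintro ⟨h8 | h8, h9⟩
        · exact h8
        · have h10 := (Finset.mem_Icc.1 (h3 h8)).1
          have h11 := (Finset.mem_Icc.1 h9).2
          omega
      · intro h8
        exact ⟨Or.inl h8, h5 h8⟩
    · ext q
      simp only [Finset.mem_inter, Finset.mem_union]
      constructor
      · rintro ⟨h8 | h8, h9⟩
        · have h10 := (Finset.mem_Icc.1 (h5 h8)).2
          have h11 := (Finset.mem_Icc.1 h9).1
          omega
        · exact h8
      · intro h8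
        exact ⟨Or.inr h8, h3 h8⟩
  · intro O hO
    obtain ⟨h1, h2, h3⟩ := Finset.mem_filter.1 hO
    rw [Finset.mem_powerset] at h1
    have h4 : O = (O ∩ Finset.Icc 1 L) ∪ (O ∩ Finset.Icc (L + 1) M) := by
      ext q
      simp only [Finset.mem_union, Finset.mem_inter, Finset.mem_Icc]
      constructor
      · intro hq
        have h5 := Finset.mem_Icc.1 (h1 hq)
        rcases le_or_gt q L with h6 | h6
        · exact Or.inl ⟨hq, h5.1, h6⟩
        · exact Or.inr ⟨hq, h6, h5.2⟩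
      · rintro (h5 | h5) <;> exact h5.1
    have h5 : FO N O = FO N (O ∩ Finset.Icc 1 L) + ∑ p ∈ O ∩ Finset.Icc (L + 1) M,
        3 ^ (t + rk (O ∩ Finset.Icc (L + 1) M) p) * (2 : ZMod (3 ^ N))⁻¹ ^ p := by
      have h6 := FO_union N (L := L) (M := M) (O1 := O ∩ Finset.Icc 1 L)
        (O2 := O ∩ Finset.Icc (L + 1) M) Finset.inter_subset_right Finset.inter_subset_right
      rw [← h4, (h𝒢 _ h2).2] at h6
      exact h6
    rw [h5, mul_add, neg_add, AddChar.map_add_eq_mul]

end Pool.Agent.WIR.H32
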